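import Pool.Agent.L7h16.SQ.Base
import Pool.Agent.N760.IT.C
import Pool.Agent.N375.AV.D
import Pool.Agent.N375.AV.Ex

/-!
# A prime between consecutive squares and an almost prime with EVERY given sum, for ALL `N` near the values of arithmetic
functions

`Good r c δ N`: for every `h` with `|h| ≤ N ^ 2` and every window `[α, β]` in `[0, 1]` of length at least `N ^ (-δ)` there are
`≥ c (β - α) N / (log N) ^ 2` integers `k` in `[2 α N, 2 β N]` such that `N ^ 2 + k + 1` is a prime and `(N + 1) ^ 2 - k + 2 h`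
has at most `r` prime factors, all larger than `N ^ δ` (`h = 0` is the question, with an almost prime as the second number).
The result `EverySum` has this for all but `X ^ (1 - δ)` of the `N ≤ X`. Here:

**(1) Multiplicative functions.** For ALL `N` within `v ^ κ` of `G v`, `v = F(m)`, for all `m ≤ X` but `X / (log X) ^ A`; and
for `v = F(φ_i(m))` for ALL `i ≤ K(m)`, `K(m)` tending to infinity, for almost all `m`, where `φ_i` is the `i`-th iterate of
Euler's function, `F` is a positive multiplicative function of at most polynomial growth with `F p ≤ M p` for the large primes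
`p` and different values at different large primes (the identity, Euler's function, the sum of the divisors), and `G` has steps
bounded below by a positive constant and grows at most like `v ^ d` (`G v = a v ^ d`). So for almost all `m` each of the
numbers `m`, `φ(m)`, `φ(φ(m))`, … and `σ(m)`, `σ(φ(m))`, … and all `N` near them are good.

**(2) Additive functions and their compositions.** The same near `G v`, `v = F_1(F_2(⋯ F_l(m)))`, each `F_i` dominated by the
largest prime factor (`PD`: for example the sum of the prime factors, the largest prime factor, Kempner's function), with at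
most `K X exp (- b (log X)^(1 / (l + 1)))` exceptions `m ≤ X`.

The values of these functions form a thin set and are taken with very large multiplicities, so this does not follow from
the number of the exceptional `N`. Proof: such functions avoid thin sets (tools of helper733, helper760, helper375).
-/

set_option autoImplicit false

namespace Pool.Agent.Results.MP_e94e4b_nt.ArithmeticFunctions

open Filter
open Pool.Agent.N733.TG (LM Expanding lm_totient lm_sigma expanding_pow keep_good_nat)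
open Pool.Agent.N760.IT (orb lm_id orbit_good_nat)
open Pool.Agent.N826.IT.Orb (AlmostAll)
open Pool.Agent.N375.AV (PD comp pd_additive pd_sopfr pd_largest pd_kempner)
open Pool.Agent.L7h16.SQ (Good)

/-- **Theorem.** There are `r` and `c, δ > 0`, `0 < η ≤ 1` such that for all expanding `G` of degree `d` and all `κ ≥ 0` with
`d (1 - η) + κ < 1`: (1) for all `F` with `LM` all the `N ≥ 2` within `(F m) ^ κ` of `G (F m)` are good, for all `m ≤ X` but
`X / (log X) ^ A`, and near all the `G (F (φ_i m))`, `i ≤ K(m)`, for almost all `m`; (2) for all lists of functions `PD` all the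
`N ≥ 2` near `G` of the value of the composition are good, but for `K X exp (- b (log X) ^ (1 / (l + 1)))` of the `m ≤ X`.
(3) Examples of `LM`, `PD` and expanding functions. -/
theorem result :
    (∃ (r : ℕ) (c δ η : ℝ), 0 < c ∧ 0 < δ ∧ 0 < η ∧ η ≤ 1 ∧
      ∀ (G : ℕ → ℝ) (d : ℝ), Expanding G d → ∀ κ : ℝ, 0 ≤ κ → d * (1 - η) + κ < 1 →
        (∀ F : ℕ → ℕ, LM F →
          (∀ A : ℕ, ∃ X₀ : ℕ, ∀ X : ℕ, X₀ ≤ X →
            ({m : ℕ | 1 ≤ m ∧ m ≤ X ∧ ¬ ∀ N : ℕ, 2 ≤ N → |(N : ℝ) - G (F m)| ≤ (F m : ℝ) ^ κ → Good r c δ N}.ncard : ℝ) ≤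
              X / Real.log X ^ A) ∧
          ∃ K : ℕ → ℕ, Tendsto K atTop atTop ∧ AlmostAll (fun m => ∀ i ≤ K m, ∀ N : ℕ, 2 ≤ N →
            |(N : ℝ) - G (orb F i m)| ≤ (orb F i m : ℝ) ^ κ → Good r c δ N)) ∧
        ∀ Fs : List (ℕ → ℕ), (∀ F ∈ Fs, PD F) → ∃ b K : ℝ, 0 < b ∧ ∀ X : ℕ, 1 ≤ X →
          ({m : ℕ | 1 ≤ m ∧ m ≤ X ∧ ¬ ∀ N : ℕ, 2 ≤ N → |(N : ℝ) - G (comp Fs m)| ≤ (comp Fs m : ℝ) ^ κ →
            Good r c δ N}.ncard : ℝ) ≤ K * X * Real.exp (-(b * Real.log X ^ ((1 : ℝ) / (Fs.length + 1))))) ∧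
    (LM (fun m => m) ∧ LM Nat.totient ∧ LM (fun m => ∑ d ∈ m.divisors, d)) ∧
    ((∀ f : ℕ → ℕ, (∀ a b : ℕ, Nat.Coprime a b → f (a * b) = f a + f b) →
      (∃ C : ℕ, ∀ q j : ℕ, q.Prime → 1 ≤ j → f (q ^ j) ≤ C * q ^ j) →
      (∃ P : ℕ, ∀ p q : ℕ, p.Prime → q.Prime → P ≤ p → P ≤ q → f p = f q → p = q) → PD f) ∧
      PD (fun n => n.primeFactorsList.sum) ∧ PD (fun n => n.primeFactors.sup id) ∧
      PD (fun n => sInf {k : ℕ | n ∣ k.factorial})) ∧
    ∀ a d : ℝ, 0 < a → 1 ≤ d → Expanding (fun v => a * (v : ℝ) ^ d) d := by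
  refine ⟨?_, ⟨lm_id, lm_totient, lm_sigma⟩, ⟨fun f h1 h2 h3 => pd_additive h1 h2 h3, pd_sopfr, pd_largest, pd_kempner⟩,
    fun a d ha hd => expanding_pow ha hd⟩
  obtain ⟨r, c, δ, η, hc, hδ, hη, hη1, H⟩ := Pool.Agent.L7h16.SQ.count
  have e : ∀ (P : ℕ → Prop), (∀ N : ℕ, 1 ≤ N → 2 ≤ N → P N) ↔ ∀ N : ℕ, 2 ≤ N → P N := fun P =>
    ⟨fun h N hN => h N (by omega) hN, fun h N _ hN => h N hN⟩
  refine ⟨r, c, δ, η, hc, hδ, hη, hη1, fun G d hG κ hκ hdκ => ⟨fun F hF => ⟨fun A => ?_, ?_⟩, fun Fs hFs => ?_⟩⟩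
  · obtain ⟨X₀, h⟩ := keep_good_nat (fun t => 2 ≤ t) (Good r c δ) hF hG (by linarith : 0 ≤ 1 - η) hκ hdκ H A
    refine ⟨X₀, fun X hX => le_trans (le_of_eq ?_) (h X hX)⟩
    congr 2
    ext m
    simp only [Set.mem_ofPred_eq, e (fun N => |(N : ℝ) - G (F m)| ≤ (F m : ℝ) ^ κ → Good r c δ N)]
  · obtain ⟨K, hK, hK2⟩ := orbit_good_nat (fun t => 2 ≤ t) (Good r c δ) hF hG (by linarith : 0 ≤ 1 - η) hκ hdκ H
    refine ⟨K, hK, ?_⟩
    refine Pool.Agent.N826.IT.Orb.almostAll_mono hK2 fun m hm i hi N hN => hm i hi N (by omega) hN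
  · obtain ⟨b, K, hb, h⟩ := Pool.Agent.N375.AV.good_nat (fun t => 2 ≤ t) (Good r c δ) Fs hFs hG (by linarith : 0 ≤ 1 - η) hκ
      hdκ H
    refine ⟨b, K, hb, fun X hX => le_trans (le_of_eq ?_) (h X hX)⟩
    congr 2
    ext m
    simp only [Set.mem_ofPred_eq, e (fun N => |(N : ℝ) - G (comp Fs m)| ≤ (comp Fs m : ℝ) ^ κ → Good r c δ N)]

end Pool.Agent.Results.MP_e94e4b_nt.ArithmeticFunctions
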