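import Mathlib
import Pool.Agent.L7h88.EV.All

/-!
# A prime between consecutive squares and an almost prime with EVERY given sum, for all but `X^(1-δ)` of the `N ≤ X`
-/

set_option autoImplicit false

namespace Pool.Agent.Results.MP_e94e4b_nt.EverySum

open Finset

open Classical in
/-- the `k`, `2 ≤ k ≤ 2 N`, in the window `[2 α N, 2 β N]` such that `N² + k + 1` is a prime and `(N+1)² - k + 2 h` has at most `r` prime factors (with multiplicity), all of them larger than `N^δ` -/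
noncomputable def pairs (r : ℕ) (δ : ℝ) (N : ℕ) (h : ℤ) (α β : ℝ) : Finset ℕ :=
  (Icc 2 (2 * N)).filter (fun k : ℕ => 2 * α * N ≤ k ∧ (k : ℝ) ≤ 2 * β * N ∧ (N ^ 2 + k + 1).Prime ∧
    ((((N : ℤ) + 1) ^ 2 - k + 2 * h).natAbs).primeFactorsList.length ≤ r ∧
    ∀ l : ℕ, l.Prime → (l : ℤ) ∣ ((N : ℤ) + 1) ^ 2 - k + 2 * h → (N : ℝ) ^ δ < l)

open Classical in
/-- **Every sum, every window.** -/
theorem result : ∃ (r : ℕ) (c δ : ℝ), 0 < c ∧ 0 < δ ∧ ∃ X₀ : ℕ, ∀ X : ℕ, X₀ ≤ X →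
    (((Icc 2 X).filter (fun N : ℕ => ¬ ∀ (h : ℤ) (α β : ℝ), |h| ≤ (N : ℤ) ^ 2 → 0 ≤ α → β ≤ 1 → (N : ℝ) ^ (-δ) ≤ β - α →
      c * ((β - α) * (N / Real.log N ^ 2)) ≤ ((pairs r δ N h α β).card : ℝ))).card : ℝ) ≤ (X : ℝ) ^ (1 - δ) :=
  Pool.Agent.L7h88.EV.sum

end Pool.Agent.Results.MP_e94e4b_nt.EverySum
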