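import Pool.Agent.L7h16.SQ.Base
import Pool.Agent.N251.LF.Win
import Pool.Agent.N251.LF.Fields
import Pool.Agent.N671.DA.Win

/-!
# A prime between consecutive squares and an almost prime with EVERY given sum, for ALL `N` near generic linear forms and
good approximations

`Good r c δ N`: for every `h` with `|h| ≤ N ^ 2` and every window `[α, β]` in `[0, 1]` of length at least `N ^ (-δ)` there are
`≥ c (β - α) N / (log N) ^ 2` integers `k` in `[2 α N, 2 β N]` such that `N ^ 2 + k + 1` is a prime and `(N + 1) ^ 2 - k + 2 h`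
has at most `r` prime factors, all larger than `N ^ δ` (`h = 0` is the question, with an almost prime as the second number).
The result `EverySum` has this for all but `X ^ (1 - δ)` of the `N ≤ X`. Here:

**(1) Generic linear forms.** Let `v_i`, `i` in a countable set, be vectors in `ℝ^k`, `O(X^(τ + ε'))` of them of norm at most `X`
for every `ε' > 0`: for instance `(1, n, …, n^D)` with `τ = 1 / D`, `(b_1^(n_1), …, b_k^(n_k))`, `b_j > 1`, with `τ = 0`. ALL the
`N ≥ 2` within `C ‖v_i‖^θ` of `∑ α_j v_(i,j)` are good, for all but finitely many `i`, for all `α` in `ℝ^k` outside a set of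
Hausdorff dimension at most `k - 1 + (1 - η + τ) / (1 - θ)`, and so for almost all `α` if `τ + θ < η`. For example: for almost
all `α` ALL but finitely many of the integers `⌊α b^n⌋` and `⌊α n^D⌋`, `D > 1 / η`, are good.

**(2) Good approximations.** Let `β` be in `ℝ^M` and `a, σ > 0`. ALL the `N ≥ 2` within `q^θ` of `a q` are good, for all large `q`
with `‖q α_j - β_j‖ ≤ b q^(-σ)` for all `j ≤ M`; for `β = 0`, `b = 1`, `σ = 1 / M` these include the denominators of all best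
simultaneous approximations of `α`. This for all `α` in `ℝ^M` outside a set of Hausdorff dimension at most
`(M + 1 - η + θ) / (1 + σ)`, and so for almost all `α` if `σ = 1 / M` and `θ < η`.

These sequences of `N` are much thinner than the exceptional set of `EverySum`. Tools: helper251 (slabs), helper671
(approximations).
-/

set_option autoImplicit false

namespace Pool.Agent.Results.MP_e94e4b_nt.LinearFormsApproximations

open MeasureTheory
open Pool.Agent.N251.LF (Fam Sq linear_good_nat null_of_dim)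
open Pool.Agent.N671.DA (Solves approx_good_nat expanding_pow)
open Pool.Agent.L7h16.SQ (Good)

/-- all the `N ≥ 2` within `C ‖v i‖ ^ θ` of `∑ α_j v_(i,j)` are good, for all but finitely many `i` -/
def Forms (r : ℕ) (c δ θ : ℝ) {k : ℕ} {ι : Type} (v : ι → Fin k → ℝ) (α : Fin k → ℝ) : Prop :=
  ∀ C : ℝ, {i | ¬ ∀ N : ℕ, 2 ≤ N → |(N : ℝ) - ∑ j, α j * v i j| ≤ C * ‖v i‖ ^ θ → Good r c δ N}.Finite

/-- all the `N ≥ 2` within `q ^ θ` of `a q` are good, for all large `q` with `‖q α_j - β_j‖ ≤ b q ^ (-σ)` for all `j` -/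
def Approx (r : ℕ) (c δ θ a σ : ℝ) {M : ℕ} (β α : Fin M → ℝ) : Prop :=
  ∀ b : ℝ, ∃ Q : ℕ, ∀ q : ℕ, Q ≤ q → Solves α β q (b * (q : ℝ) ^ (-σ)) →
    ∀ N : ℕ, 2 ≤ N → |(N : ℝ) - a * q| ≤ (q : ℝ) ^ θ → Good r c δ N

/-- **Theorem.** There are `r` and `c, δ > 0`, `0 < η ≤ 1` such that for all `0 ≤ θ < 1`:

(1) for all families `v` of vectors in `ℝ^k` of exponent `τ ≥ 0`, `Forms` holds for all `α` in `ℝ^k` outside a set of Hausdorff
dimension at most `k - 1 + (1 - η + τ) / (1 - θ)`; and for almost all `α` if `k ≥ 1` and `τ + θ < η`;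

(2) for all `M`, `β` in `ℝ^M`, `a, σ > 0`, `Approx` holds for all `α` in `ℝ^M` outside a set of Hausdorff dimension at most
`(M + (1 - η) + θ) / (1 + σ)`; and for almost all `α` if `M ≥ 1` and `1 - η + θ < M σ`.

(3) The vectors `(1, n, …, n^D)` are a family of exponent `1 / D`, the `(b_1^(n_1), …, b_k^(n_k))` with `b_j > 1` one of
exponent `0`, the `(n_1^(a_1), …, n_k^(a_k))` with `a_j > 0` one of exponent `∑ 1 / a_j`, and the `(u_1(n_1), …, u_k(n_k))` one
of exponent `∑ τ_j`, if the sequences `u_j` have exponents `τ_j`. -/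
theorem result :
    (∃ (r : ℕ) (c δ η : ℝ), 0 < c ∧ 0 < δ ∧ 0 < η ∧ η ≤ 1 ∧ ∀ θ : ℝ, 0 ≤ θ → θ < 1 →
      (∀ (k : ℕ) (ι : Type) (v : ι → Fin k → ℝ) (τ : ℝ), Fam v τ → 0 ≤ τ →
        (∃ E : Set (Fin k → ℝ), dimH E ≤ ENNReal.ofReal ((k : ℝ) - 1 + (1 - η + τ) / (1 - θ)) ∧
          ∀ α, α ∉ E → Forms r c δ θ v α) ∧
        (1 ≤ k → τ + θ < η → ∀ᵐ α : Fin k → ℝ, Forms r c δ θ v α)) ∧
      ∀ (M : ℕ) (β : Fin M → ℝ) (a σ : ℝ), 0 < a → 0 < σ →
        (∃ E : Set (Fin M → ℝ), dimH E ≤ ENNReal.ofReal ((M + (1 - η + θ)) / (1 + σ)) ∧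
          ∀ α, α ∉ E → Approx r c δ θ a σ β α) ∧
        (1 ≤ M → 1 - η + θ < M * σ → ∀ᵐ α : Fin M → ℝ, Approx r c δ θ a σ β α)) ∧
    (∀ d : ℕ, 1 ≤ d → Fam (fun (n : ℕ) (j : Fin (d + 1)) => (n : ℝ) ^ (j : ℕ)) (1 / d)) ∧
    (∀ (k : ℕ) (b : Fin k → ℝ), (∀ j, 1 < b j) → Fam (fun (n : Fin k → ℕ) (j : Fin k) => b j ^ n j) 0) ∧
    (∀ (k : ℕ) (a : Fin k → ℝ), (∀ j, 0 < a j) →
      Fam (fun (n : Fin k → ℕ) (j : Fin k) => (n j : ℝ) ^ a j) (∑ j, 1 / a j)) ∧
    ∀ (k : ℕ) (u : Fin k → ℕ → ℝ) (τ : Fin k → ℝ), (∀ j, Sq (u j) (τ j)) →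
      Fam (fun (n : Fin k → ℕ) (j : Fin k) => u j (n j)) (∑ j, τ j) := by
  have nul : ∀ {k : ℕ} {E : Set (Fin k → ℝ)} {r : ℝ}, 1 ≤ k → dimH E ≤ ENNReal.ofReal r → r < k → ∀ᵐ α : Fin k → ℝ, α ∉ E := by
    intro k E r hk hE hr
    have h0 : volume E = 0 := by
      refine null_of_dim hE ?_ ?_
      · rw [Fintype.card_fin]
        exact hr
      · rw [Fintype.card_fin]
        omega
    rw [ae_iff]
    simpa using h0
  refine ⟨?_, Pool.Agent.N251.LF.examples⟩
  obtain ⟨r, c, δ, η, hc, hδ, hη, hη1, H⟩ := Pool.Agent.L7h16.SQ.count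
  have hs : 0 ≤ 1 - η := by linarith
  refine ⟨r, c, δ, η, hc, hδ, hη, hη1, fun θ hθ hθ1 => ⟨fun k ι v τ hv hτ => ?_, fun M β a σ ha hσ => ?_⟩⟩
  · obtain ⟨E, hE, hE2⟩ := linear_good_nat (fun t => 2 ≤ t) (Good r c δ) v hs hτ hθ1 hv H
    have hF : ∀ α, α ∉ E → Forms r c δ θ v α := fun α hα C => (hE2 α hα C).subset fun i hi hcon =>
      hi fun N hN hw => hcon N (by omega) hN hw
    refine ⟨⟨E, hE, hF⟩, fun hk1 hsum => ?_⟩
    filter_upwards [nul hk1 hE (by
      have h1 : (1 - η + τ) / (1 - θ) < 1 := by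
        rw [div_lt_one (by linarith)]
        linarith
      linarith)] with α hα
    exact hF α hα
  · obtain ⟨E, hE, hE2⟩ := approx_good_nat (fun t => 2 ≤ t) (Good r c δ) (expanding_pow ha le_rfl) hs hθ hθ1.le H β hσ
    rw [one_mul] at hE
    have hF : ∀ α, α ∉ E → Approx r c δ θ a σ β α := by
      intro α hα b
      obtain ⟨Q, hQ⟩ := hE2 α hα b
      refine ⟨Q, fun q hq hsol N hN hw => hQ q hq hsol N (by omega) hN ?_⟩
      simpa only [Real.rpow_one] using hw
    refine ⟨⟨E, hE, hF⟩, fun hM hsum => ?_⟩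
    filter_upwards [nul hM hE (by
      rw [div_lt_iff₀ (by linarith)]
      linarith)] with α hα
    exact hF α hα

end Pool.Agent.Results.MP_e94e4b_nt.LinearFormsApproximations
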