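import Mathlib
import Pool.Agent.L7h88.MW.ResB
import Pool.Agent.L7h88.MW.All

/-!
# Prime pairs between consecutive squares, metric form: asymptotic formula in all windows for almost all `N`

For almost every `(α_1, …, α_t) ∈ (0, ∞)^t` and all integers `b_i`, outside a set of `N` with `o(X / (log X)^K)` elements up to `X`,
for every `K`: the `k`, `2 ≤ k ≤ 2 N`, for which `N² + k + 1` and all `⌊α_i ((N+1)² - k)⌋ + b_i` are primes are uniformly
distributed, and their number is asymptotically `2 N / (2 log N)^(t+1)`.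
-/

set_option autoImplicit false

namespace Pool.Agent.Results.MP_e94e4b_nt.MetricAllWindows

open Finset MeasureTheory Filter Topology

open Classical in
/-- `E` has `o(X / (log X)^K)` elements up to `X`, for every `K` -/
def Thin (E : ℕ → Prop) : Prop := ∀ K : ℕ,
  Tendsto (fun X : ℕ => (#((Icc 1 X).filter E) : ℝ) * (Real.log X) ^ K / X) atTop (𝓝 0)

open Classical in
/-- the number of the `k`, `2 ≤ k ≤ 2 N`, in `[2 u N, 2 v N]` for which `N² + k + 1` and all the `⌊α_i ((N+1)² - k)⌋ + b_i` are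
primes -/
noncomputable def count {t : ℕ} (α : Fin t → ℝ) (b : Fin t → ℤ) (u v : ℝ) (N : ℕ) : ℕ :=
  #((Icc 2 (2 * N)).filter fun k : ℕ => 2 * u * N ≤ k ∧ (k : ℝ) ≤ 2 * v * N ∧ (N ^ 2 + k + 1).Prime ∧
    ∀ i, (⌊α i * (((N + 1) ^ 2 - k : ℕ) : ℝ)⌋ + b i).toNat.Prime)

/-- **All windows, asymptotically, for almost every `α` and almost all `N`.** -/
theorem result (t : ℕ) : ∀ᵐ α : Fin t → ℝ, (∀ i, 0 < α i) → ∀ b : Fin t → ℤ, ∀ ε : ℝ, 0 < ε →
    Thin fun N => ∃ u v : ℝ, 0 ≤ u ∧ u ≤ v ∧ v ≤ 1 ∧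
      ε < |(count α b u v N : ℝ) / (2 * N / (2 * Real.log N) ^ (t + 1)) - (v - u)| :=
  Pool.Agent.L7h88.MW.resB Pool.Agent.L7h88.MW.gen Pool.Agent.L7h88.MW.pn2 t

end Pool.Agent.Results.MP_e94e4b_nt.MetricAllWindows
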